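import Pool.Agent.Q126.KB.Sq

/-! # Approximation of a Kakeya set by squeezed copies of another one -/

set_option autoImplicit false

open MeasureTheory Metric Set Filter TopologicalSpace
open scoped Topology ENNReal NNReal RealInnerProductSpace

namespace Pool.Agent.Q126.KB

variable {n : ℕ}

/-- the squeezed copies -/
noncomputable def cp (p c e : E n) (η : ℝ) (x : E n) : E n := p + (2 : ℝ) • sq e η (x - c)

lemma continuous_cp (p c e : E n) (η : ℝ) : Continuous (cp p c e η) := by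
  unfold cp
  have : Continuous (sq e η) := LinearMap.continuous_of_finiteDimensional _
  fun_prop

/-- the slab -/
def slab (e c : E n) (η : ℝ) : Set (E n) := {x | |⟪e, x - c⟫| ≤ 1 / 4 + η}

lemma isClosed_slab (e c : E n) (η : ℝ) : IsClosed (slab e c η) := by
  unfold slab
  exact isClosed_le (by fun_prop) (by fun_prop)

/-- a copy of the part in the slab is close to the segment -/
lemma cp_close {K : Set (E n)} {a c e : E n} (he : ‖e‖ = 1)
    (ha : ∀ t ∈ Icc (0 : ℝ) 1, a + t • e ∈ K) {η R : ℝ} (h0 : 0 ≤ η) {x : E n}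
    (hx : x ∈ slab e c η) (hR : ‖x - c‖ ≤ R) :
    ∃ z ∈ K, dist (cp (a + (1 / 2 : ℝ) • e) c e η x) z ≤ 2 * η + 4 * η * R := by
  set h : ℝ := ⟪e, x - c⟫ with hh
  have hs : |h| ≤ 1 / 4 + η := hx
  set h' : ℝ := max (-(1 / 4)) (min h (1 / 4)) with hh'
  have h1 : |h - h'| ≤ η := by
    rw [abs_le] at hs ⊢
    rcases le_total h (1 / 4) with h4 | h4
    · rw [min_eq_left h4] at hh'
      rcases le_total h (-(1 / 4)) with h5 | h5
      · rw [max_eq_left h5] at hh'
        constructor <;> linarith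
      · rw [max_eq_right h5] at hh'
        constructor <;> linarith
    · rw [min_eq_right h4, max_eq_right (by norm_num)] at hh'
      constructor <;> linarith
  have h2 : -(1 / 4) ≤ h' := le_max_left _ _
  have h3 : h' ≤ 1 / 4 := max_le (by norm_num) (min_le_right _ _)
  refine ⟨a + (1 / 2 + 2 * h') • e, ha _ ⟨by linarith, by linarith⟩, ?_⟩
  rw [dist_eq_norm]
  have h4 : cp (a + (1 / 2 : ℝ) • e) c e η x - (a + (1 / 2 + 2 * h') • e) =
      (2 : ℝ) • (sq e η (x - c) - h • e) + (2 * (h - h')) • e := by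
    unfold cp
    module
  rw [h4]
  refine (norm_add_le _ _).trans ?_
  rw [norm_smul, norm_smul, he, Real.norm_eq_abs, Real.norm_eq_abs, abs_mul, abs_two, mul_one]
  have h5 := norm_sq_sub_le he h0 (x - c)
  have h6 : 2 * η * ‖x - c‖ ≤ 2 * η * R := mul_le_mul_of_nonneg_left hR (by linarith)
  linarith

/-- a copy of the part in the slab has the segments -/
lemma cp_seg {L : Set (E n)} (hL : HasSeg L) {e u : E n} (he : ‖e‖ = 1) (hu : ‖u‖ = 1) {η : ℝ}
    (h0 : 0 < η) (hd : ‖u - e‖ ≤ η) {T : Set (E n)} (hT : L ⊆ ⋃ c ∈ T, ball c η) (p : E n) :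
    ∃ c ∈ T, ∃ a, ∀ t ∈ Icc (0 : ℝ) 1, a + t • u ∈ cp p c e η '' (L ∩ slab e c η) := by
  have hw2 := norm_sq_inv_unit_le he hu h0 hd
  set w := sq e η⁻¹ u with hw
  have hwu : sq e η w = u := sq_sq he (mul_inv_cancel₀ h0.ne') u
  have hw0 : w ≠ 0 := by
    intro h
    rw [h, map_zero] at hwu
    rw [← hwu, norm_zero] at hu
    exact zero_ne_one hu
  have hwn : 0 < ‖w‖ := norm_pos_iff.2 hw0
  obtain ⟨b, hb⟩ := hL (‖w‖⁻¹ • w) (by
    rw [norm_smul, norm_inv, norm_norm, inv_mul_cancel₀ hwn.ne'])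
  have hb' : ∀ s ∈ Icc (0 : ℝ) 1, b + (s / 2) • w ∈ L := by
    intro s hs
    have := hb (s / 2 * ‖w‖) ⟨by have := hs.1; positivity, by nlinarith [hs.1, hs.2]⟩
    rwa [smul_smul, mul_assoc, mul_inv_cancel₀ hwn.ne', mul_one] at this
  obtain ⟨c, hc, hbc⟩ := mem_iUnion₂.1 (hT (hb' (1 / 2) ⟨by norm_num, by norm_num⟩))
  refine ⟨c, hc, p + (2 : ℝ) • sq e η (b - c), fun t ht => ⟨b + (t / 2) • w, ⟨hb' t ht, ?_⟩, ?_⟩⟩
  · show |⟪e, b + (t / 2) • w - c⟫| ≤ 1 / 4 + η
    have e1 : ⟪e, w⟫ = ⟪e, u⟫ := inner_sq he _ _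
    have e2 : b + (t / 2) • w - c = (b + (1 / 2 / 2 : ℝ) • w - c) + (t / 2 - 1 / 4) • w := by
      module
    rw [e2, inner_add_right, inner_smul_right, e1]
    refine (abs_add_le _ _).trans ?_
    have e3 : |⟪e, b + (1 / 2 / 2 : ℝ) • w - c⟫| ≤ η := by
      refine (abs_inner_le he _).trans ?_
      rw [← dist_eq_norm]
      exact (mem_ball.1 hbc).le
    have e4 : |(t / 2 - 1 / 4) * ⟪e, u⟫| ≤ 1 / 4 := by
      rw [abs_mul]
      have e5 := abs_inner_le he u
      rw [hu] at e5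
      have e6 : |t / 2 - 1 / 4| ≤ 1 / 4 := by
        rw [abs_le]
        constructor <;> linarith [ht.1, ht.2]
      calc |t / 2 - 1 / 4| * |⟪e, u⟫| ≤ 1 / 4 * 1 :=
            mul_le_mul e6 e5 (abs_nonneg _) (by norm_num)
        _ = 1 / 4 := by norm_num
    linarith
  · unfold cp
    have e2 : b + (t / 2) • w - c = (b - c) + (t / 2) • w := by abel
    rw [e2, map_add, map_smul, hwu]
    module

/-- **Approximation.** Arbitrarily close to a Kakeya set `K` there are Kakeya sets which consist of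
finitely many points and of subsets of finitely many squeezed copies of the Kakeya set `L`; the
points, the number of the copies, their directions and the squeezing factor do not depend on `L`, as
long as `L` is contained in the ball of the radius `R`. -/
theorem approx {K : NonemptyCompacts (E n)} (hK : K ∈ KSet n) {ε : ℝ} (hε : 0 < ε) {R : ℝ}
    (hR0 : 0 ≤ R) : ∃ (F : Set (E n)) (ι : Type) (_ : Finite ι) (p e : ι → E n) (η : ℝ),
      0 < η ∧ η ≤ 1 ∧ (∀ i, ‖e i‖ = 1) ∧ F.Finite ∧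
      ∀ L ∈ KSet n, (L : Set (E n)) ⊆ closedBall 0 R → ∃ K' ∈ KSet n, dist K' K < ε ∧
      ∃ c : ι → E n, (K' : Set (E n)) ⊆ F ∪ ⋃ i, cp (p i) (c i) (e i) η '' (L : Set (E n)) := by
  set η : ℝ := min 1 (ε / 4 / (2 + 8 * R)) with hη
  have h0 : 0 < η := lt_min one_pos (by positivity)
  have h1 : η ≤ 1 := min_le_left _ _
  have h2 : 2 * η + 4 * η * (2 * R) ≤ ε / 4 := by
    have : η ≤ ε / 4 / (2 + 8 * R) := min_le_right _ _
    rw [le_div_iff₀ (by positivity)] at this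
    linarith
  obtain ⟨D, hDs, hDf, hD⟩ := (isCompact_sphere (0 : E n) 1).finite_cover_balls h0
  obtain ⟨Z, hZL, hZf, hZ⟩ := (isCompact_closedBall (0 : E n) R).finite_cover_balls
    (by positivity : 0 < η / 2)
  obtain ⟨F, hFK, hFf, hF⟩ := K.isCompact.finite_cover_balls (by positivity : 0 < ε / 4)
  have hDn : ∀ d : D, ‖(d : E n)‖ = 1 := fun d => by simpa using hDs d.2
  choose a ha using fun d : D => hK (d : E n) (hDn d)
  have : Finite D := hDf
  have : Finite Z := hZf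
  refine ⟨F, D × Z, inferInstance, fun i => a i.1 + (1 / 2 : ℝ) • (i.1 : E n), fun i => i.1, η,
    h0, h1, fun i => hDn _, hFf, fun L hL hR => ?_⟩
  -- the centres
  have hcen : ∀ z : Z, ∃ c ∈ (L : Set (E n)), ((ball (z : E n) (η / 2) ∩ L).Nonempty →
      c ∈ ball (z : E n) (η / 2)) := by
    intro z
    by_cases hz : (ball (z : E n) (η / 2) ∩ L).Nonempty
    · obtain ⟨c, hc1, hc2⟩ := hz
      exact ⟨c, hc2, fun _ => hc1⟩
    · obtain ⟨c, hc⟩ := L.nonempty
      exact ⟨c, hc, fun h => absurd h hz⟩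
  choose cc hcL hcz using hcen
  have hT : (L : Set (E n)) ⊆ ⋃ c ∈ range cc, ball c η := by
    intro x hx
    obtain ⟨z, hz, hxz⟩ := mem_iUnion₂.1 (hZ (hR hx))
    refine mem_iUnion₂.2 ⟨cc ⟨z, hz⟩, mem_range_self _, ?_⟩
    have e1 := mem_ball.1 hxz
    have e2 := mem_ball.1 (hcz ⟨z, hz⟩ ⟨x, hxz, hx⟩)
    rw [mem_ball]
    have e3 := dist_triangle_right x (cc ⟨z, hz⟩) z
    linarith
  set pc : D × Z → Set (E n) := fun i =>
    cp (a i.1 + (1 / 2 : ℝ) • (i.1 : E n)) (cc i.2) i.1 η ''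
      ((L : Set (E n)) ∩ slab i.1 (cc i.2) η) with hpc
  have hcomp : IsCompact (F ∪ ⋃ i, pc i) := by
    refine hFf.isCompact.union (isCompact_iUnion fun i => ?_)
    exact (L.isCompact.inter_right (isClosed_slab _ _ _)).image (continuous_cp _ _ _ _)
  have hne : (F ∪ ⋃ i, pc i).Nonempty := by
    obtain ⟨x, hx⟩ := K.nonempty
    obtain ⟨y, hy, -⟩ := mem_iUnion₂.1 (hF hx)
    exact ⟨y, Or.inl hy⟩
  refine ⟨⟨⟨_, hcomp⟩, hne⟩, ?_, ?_, fun i => cc i.2, ?_⟩
  · intro u hu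
    obtain ⟨d, hd, hud⟩ := mem_iUnion₂.1 (hD (by simpa using hu))
    have hud' : ‖u - d‖ ≤ η := by
      rw [← dist_eq_norm]
      exact (mem_ball.1 hud).le
    obtain ⟨c, ⟨z, rfl⟩, b, hb⟩ := cp_seg hL (hDn ⟨d, hd⟩) hu h0 hud' hT
      (a ⟨d, hd⟩ + (1 / 2 : ℝ) • d)
    exact ⟨b, fun t ht => Or.inr (mem_iUnion.2 ⟨(⟨d, hd⟩, z), hb t ht⟩)⟩
  · rw [NonemptyCompacts.dist_eq]
    refine (hausdorffDist_le_of_mem_dist (r := ε / 4) (by positivity) ?_ ?_).trans_lt (by linarith)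
    · rintro x (hx | hx)
      · exact ⟨x, hFK hx, by rw [dist_self]; positivity⟩
      · obtain ⟨i, y, ⟨hy, hys⟩, rfl⟩ := mem_iUnion.1 hx
        have hyc : ‖y - (cc i.2 : E n)‖ ≤ 2 * R := by
          refine (norm_sub_le _ _).trans ?_
          have e1 := mem_closedBall_zero_iff.1 (hR hy)
          have e2 := mem_closedBall_zero_iff.1 (hR (hcL i.2))
          linarith
        obtain ⟨z, hz, hz'⟩ := cp_close (hDn i.1) (ha i.1) h0.le hys hyc
        exact ⟨z, hz, hz'.trans h2⟩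
    · intro x hx
      obtain ⟨y, hy, hxy⟩ := mem_iUnion₂.1 (hF hx)
      exact ⟨y, Or.inl hy, (mem_ball.1 hxy).le⟩
  · show F ∪ ⋃ i, pc i ⊆ _
    refine union_subset_union_right _ (iUnion_mono fun i => ?_)
    exact image_mono inter_subset_left

end Pool.Agent.Q126.KB
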