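import Pool.Agent.Q126.KB.Vol

/-! # Typical Kakeya sets and the dimensions -/

set_option autoImplicit false

open MeasureTheory Metric Set Filter TopologicalSpace
open scoped Topology ENNReal NNReal RealInnerProductSpace

namespace Pool.Agent.Q126.KB

variable {n : ℕ}

/-- the closed unit ball -/
noncomputable def unitBall (n : ℕ) : NonemptyCompacts (E n) :=
  ⟨⟨closedBall 0 1, isCompact_closedBall _ _⟩, ⟨0, by simp⟩⟩

lemma unitBall_mem (n : ℕ) : unitBall n ∈ KSet n := by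
  intro e he
  refine ⟨0, fun t ht => ?_⟩
  show (0 : E n) + t • e ∈ closedBall 0 1
  rw [zero_add, mem_closedBall_zero_iff, norm_smul, he, mul_one, Real.norm_eq_abs, abs_le]
  exact ⟨by linarith [ht.1], ht.2⟩

instance : Nonempty (KSet n) := ⟨⟨unitBall n, unitBall_mem n⟩⟩

instance : (residual (KSet n)).NeBot := by
  rw [Filter.neBot_iff]
  intro h
  have h1 : (∅ : Set (KSet n)) ∈ residual (KSet n) := by
    rw [h]
    trivial
  exact (dense_of_mem_residual h1).nonempty.ne_empty rfl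

lemma exists_ball (L : NonemptyCompacts (E n)) : ∃ R : ℝ, (L : Set (E n)) ⊆ closedBall 0 R :=
  L.isCompact.isBounded.subset_closedBall 0

lemma dimH_le_n (S : Set (E n)) : dimH S ≤ n := by
  refine (dimH_mono (subset_univ S)).trans ?_
  rw [Real.dimH_univ_eq_finrank]
  simp

/-- null sets -/
lemma residual_null {h : ℝ≥0∞ → ℝ≥0∞} (hh : Gauge h) {L : NonemptyCompacts (E n)}
    (hL : L ∈ KSet n) (h0 : Measure.mkMetric h (L : Set (E n)) = 0) :
    ∀ᶠ K : KSet n in residual (KSet n),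
      Measure.mkMetric h ((K : NonemptyCompacts (E n)) : Set (E n)) = 0 := by
  rcases hausdorff_dichotomy (n := n) hh with h1 | h1
  · exact h1
  · obtain ⟨R, hR⟩ := exists_ball L
    obtain ⟨b, hb, hb'⟩ := h1 R
    have := hb' L hL hR
    rw [(null_iff hh _).1 h0] at this
    exact absurd this (not_le.2 hb)

lemma residual_dimH_le {L : NonemptyCompacts (E n)} (hL : L ∈ KSet n) {s : ℝ≥0}
    (hs : dimH (L : Set (E n)) < s) :
    ∀ᶠ K : KSet n in residual (KSet n),
      dimH ((K : NonemptyCompacts (E n)) : Set (E n)) ≤ s := by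
  have hs0 : 0 < (s : ℝ) := by
    have : (0 : ℝ≥0∞) < s := (zero_le).trans_lt hs
    exact_mod_cast this
  have h0 : Measure.mkMetric (fun x : ℝ≥0∞ => x ^ (s : ℝ)) (L : Set (E n)) = 0 :=
    hausdorffMeasure_of_dimH_lt hs
  filter_upwards [residual_null (gauge_rpow hs0) hL h0] with K hK
  refine dimH_le_of_hausdorffMeasure_ne_top ?_
  show Measure.mkMetric (fun x : ℝ≥0∞ => x ^ (s : ℝ)) _ ≠ ∞
  rw [hK]
  simp

/-- **The typical Hausdorff dimension.** -/
theorem residual_dimH : ∀ᶠ K : KSet n in residual (KSet n), ∀ L ∈ KSet n,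
    dimH ((K : NonemptyCompacts (E n)) : Set (E n)) ≤ dimH (L : Set (E n)) := by
  have h1 : ∀ q : ℚ, ∀ᶠ K : KSet n in residual (KSet n),
      (∃ L ∈ KSet n, dimH (L : Set (E n)) < (Real.toNNReal q : ℝ≥0)) →
      dimH ((K : NonemptyCompacts (E n)) : Set (E n)) ≤ (Real.toNNReal q : ℝ≥0) := by
    intro q
    by_cases hq : ∃ L ∈ KSet n, dimH (L : Set (E n)) < (Real.toNNReal q : ℝ≥0)
    · obtain ⟨L, hL, hL'⟩ := hq
      filter_upwards [residual_dimH_le hL hL'] with K hK _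
      exact hK
    · exact Eventually.of_forall fun K h => absurd h hq
  filter_upwards [eventually_countable_forall.2 h1] with K hK L hL
  by_contra hc
  push Not at hc
  obtain ⟨q, -, hq1, hq2⟩ := ENNReal.lt_iff_exists_rat_btwn.1 hc
  exact absurd (hK q ⟨L, hL, hq1⟩) (not_le.2 hq2)

/-- `log |N_δ K| / log δ` -/
noncomputable def ratio (K : NonemptyCompacts (E n)) (δ : ℝ) : ℝ :=
  Real.log (vol K δ).toReal / Real.log δ

/-- `limsup_{δ → 0+} log |N_δ K| / log δ` -/
noncomputable def codim (K : NonemptyCompacts (E n)) : EReal :=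
  limsup (fun δ : ℝ => (ratio K δ : EReal)) (𝓝[>] 0)

lemma vol_ne_top (K : NonemptyCompacts (E n)) (δ : ℝ) : vol K δ ≠ ∞ :=
  (K.isCompact.isBounded.thickening).measure_lt_top.ne

lemma vol_pos (K : NonemptyCompacts (E n)) {δ : ℝ} (hδ : 0 < δ) : 0 < vol K δ := by
  obtain ⟨x, hx⟩ := K.nonempty
  exact (measure_ball_pos volume x hδ).trans_le (measure_mono (ball_subset_thickening hx δ))

lemma lt_ratio_iff (K : NonemptyCompacts (E n)) {δ : ℝ} (h0 : 0 < δ) (h1 : δ < 1) (a : ℝ) :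
    a < ratio K δ ↔ vol K δ < ENNReal.ofReal (δ ^ a) := by
  have hl : Real.log δ < 0 := Real.log_neg h0 h1
  have hv : 0 < (vol K δ).toReal := ENNReal.toReal_pos (vol_pos K h0).ne' (vol_ne_top K δ)
  rw [ratio, lt_div_iff_of_neg hl, ← Real.log_rpow h0, Real.log_lt_log_iff hv (by positivity),
    ENNReal.lt_ofReal_iff_toReal_lt (vol_ne_top K δ)]

lemma codim_nonneg (K : NonemptyCompacts (E n)) : 0 ≤ codim K := by
  refine le_of_forall_lt fun c hc => ?_
  obtain ⟨a, hca, ha0⟩ := EReal.lt_iff_exists_real_btwn.1 hc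
  refine hca.trans_le ?_
  have ha : a < 0 := by exact_mod_cast ha0
  refine le_limsup_of_frequently_le (Eventually.frequently ?_)
  have h1 : Tendsto (fun δ : ℝ => δ ^ a) (𝓝[>] 0) atTop := tendsto_rpow_neg_nhdsGT_zero ha
  have h2 : ∀ᶠ δ : ℝ in 𝓝[>] 0, δ < 1 :=
    nhdsWithin_le_nhds (gt_mem_nhds one_pos)
  filter_upwards [h1.eventually_gt_atTop (vol K 1).toReal, h2, self_mem_nhdsWithin] with δ h3 h4 h5
  have h6 : a < ratio K δ := by
    rw [lt_ratio_iff K h5 h4]
    refine (vol_mono K h4.le).trans_lt ?_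
    rwa [ENNReal.lt_ofReal_iff_toReal_lt (vol_ne_top K 1)]
  exact_mod_cast h6.le

lemma scale_rpow {a : ℝ} (ha : 0 ≤ a) : Scale (fun δ : ℝ => ENNReal.ofReal (δ ^ a)) where
  mono := fun x y hx hxy => ENNReal.ofReal_le_ofReal (Real.rpow_le_rpow hx.le hxy ha)
  dbl := by
    refine ⟨ENNReal.ofReal (2 ^ a), ENNReal.ofReal_ne_top, fun x hx => ?_⟩
    rw [Real.mul_rpow (by norm_num) hx.le, ENNReal.ofReal_mul (by positivity)]

lemma le_codim {K : NonemptyCompacts (E n)} {a : ℝ}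
    (hK : ∀ r > 0, ∃ δ, 0 < δ ∧ δ < r ∧ vol K δ < ENNReal.ofReal r * ENNReal.ofReal (δ ^ a)) :
    (a : EReal) ≤ codim K := by
  refine le_limsup_of_frequently_le ?_
  rw [Filter.frequently_iff]
  intro U hU
  obtain ⟨r, hr, hU'⟩ := mem_nhdsGT_iff_exists_Ioo_subset.1 hU
  have hr0 : 0 < min r 1 := lt_min hr one_pos
  obtain ⟨δ, h2, h3, h4⟩ := hK (min r 1) hr0
  refine ⟨δ, hU' ⟨h2, h3.trans_le (min_le_left _ _)⟩, ?_⟩
  have h5 : a < ratio K δ := by
    rw [lt_ratio_iff _ h2 (h3.trans_le (min_le_right _ _))]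
    refine h4.trans_le ?_
    calc ENNReal.ofReal (min r 1) * ENNReal.ofReal (δ ^ a) ≤ 1 * ENNReal.ofReal (δ ^ a) := by
          gcongr
          rw [ENNReal.ofReal_le_one]
          exact min_le_right _ _
      _ = ENNReal.ofReal (δ ^ a) := one_mul _
  exact_mod_cast h5.le

lemma codim_le {L : NonemptyCompacts (E n)} {a : ℝ} {b : ℝ≥0∞} (hb : 0 < b)
    (hL : ∀ δ, 0 < δ → δ < 1 → b * ENNReal.ofReal (δ ^ a) ≤ vol L δ) : codim L ≤ a := by
  by_contra h
  push Not at h
  obtain ⟨a', h2, h3⟩ := EReal.lt_iff_exists_real_btwn.1 h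
  have haa : a < a' := by exact_mod_cast h2
  have hfr : ∃ᶠ δ : ℝ in 𝓝[>] 0, (a' : EReal) < ratio L δ :=
    frequently_lt_of_lt_limsup (by isBoundedDefault) h3
  have h4 : Tendsto (fun δ : ℝ => ENNReal.ofReal (δ ^ (a' - a))) (𝓝[>] 0) (𝓝 0) := by
    have : Tendsto (fun δ : ℝ => δ ^ (a' - a)) (𝓝[>] 0) (𝓝 0) := by
      have h5 : ContinuousAt (fun δ : ℝ => δ ^ (a' - a)) 0 :=
        Real.continuousAt_rpow_const _ _ (Or.inr (by linarith))
      have h6 := h5.tendsto
      rw [Real.zero_rpow (by linarith)] at h6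
      exact h6.mono_left nhdsWithin_le_nhds
    have := ENNReal.tendsto_ofReal this
    simpa using this
  have h7 : ∀ᶠ δ : ℝ in 𝓝[>] 0, δ < 1 := nhdsWithin_le_nhds (gt_mem_nhds one_pos)
  obtain ⟨δ, h8, h9, h10, h11⟩ := (hfr.and_eventually
    ((h4.eventually (gt_mem_nhds hb)).and (h7.and self_mem_nhdsWithin))).exists
  have h12 : a' < ratio L δ := by exact_mod_cast h8
  have h13 : 0 < δ := h11
  rw [lt_ratio_iff L h13 h10] at h12
  have h14 := (hL δ h13 h10).trans_lt h12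
  have h15 : ENNReal.ofReal (δ ^ a') = ENNReal.ofReal (δ ^ (a' - a)) * ENNReal.ofReal (δ ^ a) := by
    rw [← ENNReal.ofReal_mul (by positivity), ← Real.rpow_add h13]
    congr 2
    ring
  rw [h15] at h14
  have h16 : ENNReal.ofReal (δ ^ (a' - a)) * ENNReal.ofReal (δ ^ a) ≤ b * ENNReal.ofReal (δ ^ a) :=
    mul_le_mul' h9.le le_rfl
  exact absurd h14 (not_lt.2 h16)

/-- the volumes of the neighbourhoods of typical Kakeya sets -/
lemma residual_le_codim {L : NonemptyCompacts (E n)} (hL : L ∈ KSet n) {a : ℝ} (ha : 0 ≤ a)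
    (h : (a : EReal) < codim L) :
    ∀ᶠ K : KSet n in residual (KSet n), (a : EReal) ≤ codim (K : NonemptyCompacts (E n)) := by
  rcases volume_dichotomy (n := n) (scale_rpow ha) with h1 | h1
  · filter_upwards [h1] with K hK
    exact le_codim hK
  · exfalso
    obtain ⟨R, hR⟩ := exists_ball L
    obtain ⟨b, hb, hb'⟩ := h1 R
    exact absurd (codim_le hb (hb' L hL hR)) (not_le.2 h)

/-- **The typical lower Minkowski dimension.** -/
theorem residual_codim : ∀ᶠ K : KSet n in residual (KSet n), ∀ L ∈ KSet n,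
    codim L ≤ codim (K : NonemptyCompacts (E n)) := by
  have h1 : ∀ q : ℚ, ∀ᶠ K : KSet n in residual (KSet n), 0 ≤ (q : ℝ) →
      (∃ L ∈ KSet n, (((q : ℝ)) : EReal) < codim L) →
      (((q : ℝ)) : EReal) ≤ codim (K : NonemptyCompacts (E n)) := by
    intro q
    by_cases hq : 0 ≤ (q : ℝ) ∧ ∃ L ∈ KSet n, (((q : ℝ)) : EReal) < codim L
    · obtain ⟨hq0, L, hL, hL'⟩ := hq
      filter_upwards [residual_le_codim hL hq0 hL'] with K hK _ _
      exact hK
    · exact Eventually.of_forall fun K h1 h2 => absurd ⟨h1, h2⟩ hq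
  filter_upwards [eventually_countable_forall.2 h1] with K hK L hL
  by_contra hc
  push Not at hc
  obtain ⟨q, hq1, hq2⟩ := EReal.lt_iff_exists_rat_btwn.1 hc
  have hq0 : 0 ≤ (q : ℝ) := by
    have := (codim_nonneg (K : NonemptyCompacts (E n))).trans_lt hq1
    exact_mod_cast this.le
  exact absurd (hK q hq0 ⟨L, hL, hq2⟩) (not_le.2 hq1)

end Pool.Agent.Q126.KB
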