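import Pool.Agent.Q126.KB.Null

/-! # Typical Kakeya sets and Hausdorff measures -/

set_option autoImplicit false

open MeasureTheory Metric Set Filter TopologicalSpace
open scoped Topology ENNReal NNReal RealInnerProductSpace

namespace Pool.Agent.Q126.KB

variable {n : ℕ}

/-- the Kakeya sets with a covering by open sets with a small sum -/
def Thin (n : ℕ) (h : ℝ≥0∞ → ℝ≥0∞) (r : ℝ≥0∞) : Set (KSet n) :=
  {K | ∃ t : ℕ → Set (E n), (∀ i, IsOpen (t i)) ∧ ((K : NonemptyCompacts (E n)) : Set (E n)) ⊆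
    ⋃ i, t i ∧ ∑' i, h (ediam (t i)) < r}

lemma subset_thickening {K K' : NonemptyCompacts (E n)} {δ : ℝ} (h : dist K' K < δ) :
    (K' : Set (E n)) ⊆ thickening δ (K : Set (E n)) := by
  intro y hy
  obtain ⟨z, hz, hz'⟩ := (infDist_lt_iff K.nonempty).1 ((infDist_le K' K hy).trans_lt h)
  exact mem_thickening_iff.2 ⟨z, hz, hz'⟩

lemma isOpen_Thin (h : ℝ≥0∞ → ℝ≥0∞) (r : ℝ≥0∞) : IsOpen (Thin n h r) := by
  rw [Metric.isOpen_iff]
  rintro K ⟨t, h1, h2, h3⟩
  obtain ⟨δ, hδ, hδ'⟩ := (K : NonemptyCompacts (E n)).isCompact.exists_thickening_subset_open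
    (isOpen_iUnion h1) h2
  refine ⟨δ, hδ, fun K' hK' => ⟨t, h1, ?_, h3⟩⟩
  exact (subset_thickening hK').trans hδ'

lemma null_of_Thin {h : ℝ≥0∞ → ℝ≥0∞} (hh : Gauge h) {K : KSet n}
    (hK : ∀ k : ℕ, K ∈ Thin n h ((k : ℝ≥0∞) + 1)⁻¹) :
    Measure.mkMetric h ((K : NonemptyCompacts (E n)) : Set (E n)) = 0 := by
  rw [null_iff hh]
  refine le_antisymm (le_of_forall_gt fun r hr => ?_) (zero_le)
  obtain ⟨k, hk⟩ := ENNReal.exists_inv_nat_lt hr.ne'
  have hk' : ((k : ℝ≥0∞) + 1)⁻¹ ≤ r := by
    refine le_trans ?_ hk.le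
    exact ENNReal.inv_le_inv.2 le_self_add
  obtain ⟨t, -, h2, h3⟩ := hK k
  exact (content_le hh h2).trans_lt (h3.trans_le hk')

lemma lip_cp {p c e : E n} (he : ‖e‖ = 1) {η : ℝ} (h0 : 0 < η) (h1 : η ≤ 1) :
    LipschitzWith 2 (cp p c e η) := by
  refine LipschitzWith.of_dist_le_mul fun x y => ?_
  rw [dist_eq_norm, dist_eq_norm]
  have : cp p c e η x - cp p c e η y = (2 : ℝ) • sq e η (x - y) := by
    have hxy : sq e η (x - y) = sq e η (x - c) - sq e η (y - c) := by
      rw [← map_sub]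
      congr 1
      abel
    unfold cp
    rw [hxy]
    module
  rw [this, norm_smul]
  have := norm_sq_le he h0.le h1 (x - y)
  simp only [Real.norm_eq_abs, abs_two, NNReal.coe_ofNat]
  linarith

/-- **The dichotomy for Hausdorff measures.** Either residually many Kakeya sets are null sets or
the Hausdorff contents of the Kakeya sets in a ball are bounded from below by a positive constant. -/
theorem hausdorff_dichotomy {h : ℝ≥0∞ → ℝ≥0∞} (hh : Gauge h) :
    (∀ᶠ K : KSet n in residual (KSet n),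
      Measure.mkMetric h ((K : NonemptyCompacts (E n)) : Set (E n)) = 0) ∨
    (∀ R : ℝ, ∃ b : ℝ≥0∞, 0 < b ∧ ∀ L ∈ KSet n, (L : Set (E n)) ⊆ closedBall 0 R →
      b ≤ content h (L : Set (E n))) := by
  by_cases hD : ∀ k : ℕ, Dense (Thin n h ((k : ℝ≥0∞) + 1)⁻¹)
  · left
    have hk : ∀ k : ℕ, ∀ᶠ K : KSet n in residual (KSet n), K ∈ Thin n h ((k : ℝ≥0∞) + 1)⁻¹ :=
      fun k => residual_of_dense_open (isOpen_Thin _ _) (hD k)
    filter_upwards [eventually_countable_forall.2 hk] with K hK
    exact null_of_Thin hh hK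
  · right
    push Not at hD
    obtain ⟨k, hk⟩ := hD
    rw [Metric.dense_iff] at hk
    push Not at hk
    obtain ⟨K, ρ, hρ, hk⟩ := hk
    set r : ℝ≥0∞ := ((k : ℝ≥0∞) + 1)⁻¹ with hr
    have hr0 : 0 < r := by simp [hr]
    obtain ⟨C', hC', hd'⟩ := hh.dbl
    set C : ℝ≥0∞ := C' + 1 with hCdef
    have hC : C ≠ ∞ := ENNReal.add_ne_top.2 ⟨hC', by simp⟩
    have hC0 : C ≠ 0 := by simp [hCdef]
    have hd : ∀ x, h (2 * x) ≤ C * h x := fun x =>
      (hd' x).trans (by gcongr; exact le_self_add)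
    intro R
    obtain ⟨F, ι, hι, p, e, η, h0, h1, he, hF, happ⟩ := approx K.2 hρ (abs_nonneg R)
    have := Fintype.ofFinite ι
    set M : ℝ≥0∞ := C * (Fintype.card ι * C) + 1 with hM
    have hMt : M ≠ ∞ := by
      refine ENNReal.add_ne_top.2 ⟨ENNReal.mul_ne_top hC (ENNReal.mul_ne_top (by simp) hC), by simp⟩
    refine ⟨r / M, ENNReal.div_pos hr0.ne' hMt, fun L hL hLR => ?_⟩
    obtain ⟨K', hK', hdist, c, hsub⟩ := happ L hL
      (hLR.trans (closedBall_subset_closedBall (le_abs_self R)))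
    -- the content of `K'`
    have e1 : content h (K' : Set (E n)) ≤ Fintype.card ι * (C * content h (L : Set (E n))) := by
      calc content h (K' : Set (E n)) ≤ content h (F ∪ ⋃ i, cp (p i) (c i) (e i) η '' (L : Set (E n))) :=
            measure_mono hsub
        _ ≤ content h F + content h (⋃ i, cp (p i) (c i) (e i) η '' (L : Set (E n))) :=
            measure_union_le _ _
        _ ≤ 0 + ∑ i, content h (cp (p i) (c i) (e i) η '' (L : Set (E n))) := by
            refine add_le_add (content_finite hh hF).le ?_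
            exact measure_iUnion_fintype_le _ _
        _ ≤ 0 + ∑ i : ι, C * content h (L : Set (E n)) := by
            gcongr with i
            exact content_image hh hC hC0 hd (lip_cp (he i) h0 h1) _
        _ = Fintype.card ι * (C * content h (L : Set (E n))) := by
            rw [zero_add, Finset.sum_const, nsmul_eq_mul, Finset.card_univ]
    have e2 : r ≤ C * content h (K' : Set (E n)) := by
      by_contra hc
      push Not at hc
      -- choose the numbers
      have h3 : content h (K' : Set (E n)) < r / C := by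
        rw [ENNReal.lt_div_iff_mul_lt (Or.inl hC0) (Or.inl hC), mul_comm]
        exact hc
      obtain ⟨t, ht1, ht2⟩ := exists_cover hh h3
      obtain ⟨q, hq0, hq⟩ : ∃ q : ℝ≥0∞, 0 < q ∧ ∑' i, h (ediam (t i)) + q < r / C := by
        obtain ⟨q, hq, hq'⟩ := exists_between ht2
        refine ⟨q - ∑' i, h (ediam (t i)), tsub_pos_iff_lt.2 hq, ?_⟩
        rwa [add_tsub_cancel_of_le hq.le]
      obtain ⟨u, hu1, hu2, hu3⟩ := exists_open hh hd t hq0
      have h4 : (⟨K', hK'⟩ : KSet n) ∈ ball K ρ ∩ Thin n h r := by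
        refine ⟨hdist, u, hu1, ht1.trans (iUnion_mono hu2), hu3.trans_lt ?_⟩
        rw [ENNReal.lt_div_iff_mul_lt (Or.inl hC0) (Or.inl hC), mul_comm] at hq
        exact hq
      rw [hk] at h4
      exact h4
    refine ENNReal.div_le_of_le_mul ?_
    calc r ≤ C * (Fintype.card ι * (C * content h (L : Set (E n)))) := by
          refine e2.trans ?_
          gcongr
      _ = (C * (Fintype.card ι * C)) * content h (L : Set (E n)) := by ring
      _ ≤ M * content h (L : Set (E n)) := by
          gcongr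
          exact le_self_add
      _ = content h (L : Set (E n)) * M := mul_comm _ _

end Pool.Agent.Q126.KB
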