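import Pool.Agent.Q126.KB.Approx

/-! # Hausdorff contents with doubling gauge functions -/

set_option autoImplicit false

open MeasureTheory Metric Set Filter TopologicalSpace
open scoped Topology ENNReal NNReal RealInnerProductSpace

namespace Pool.Agent.Q126.KB

/-- Doubling gauge functions. -/
structure Gauge (h : ℝ≥0∞ → ℝ≥0∞) : Prop where
  mono : Monotone h
  pos : ∀ x, 0 < x → 0 < h x
  lim : Tendsto h (𝓝 0) (𝓝 0)
  dbl : ∃ C : ℝ≥0∞, C ≠ ∞ ∧ ∀ x, h (2 * x) ≤ C * h x

lemma Gauge.zero {h : ℝ≥0∞ → ℝ≥0∞} (hh : Gauge h) : h 0 = 0 := by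
  refine le_antisymm ?_ (zero_le)
  refine ge_of_tendsto hh.lim ?_
  filter_upwards with x
  exact hh.mono (zero_le)

variable {X : Type} [EMetricSpace X]

/-- The Hausdorff content with the gauge function `h`. -/
noncomputable def content (h : ℝ≥0∞ → ℝ≥0∞) : OuterMeasure X :=
  OuterMeasure.boundedBy fun S => h (ediam S)

lemma sup_eq {h : ℝ≥0∞ → ℝ≥0∞} (hh : Gauge h) (t : Set X) :
    (⨆ _ : t.Nonempty, h (ediam t)) = h (ediam t) := by
  rcases t.eq_empty_or_nonempty with rfl | ht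
  · simp [hh.zero]
  · exact iSup_pos ht

lemma content_apply {h : ℝ≥0∞ → ℝ≥0∞} (hh : Gauge h) (S : Set X) :
    content h S = ⨅ (t : ℕ → Set X) (_ : S ⊆ iUnion t), ∑' i, h (ediam (t i)) := by
  rw [content, OuterMeasure.boundedBy_apply]
  simp only [sup_eq hh]

lemma content_le {h : ℝ≥0∞ → ℝ≥0∞} (hh : Gauge h) {S : Set X} {t : ℕ → Set X}
    (ht : S ⊆ ⋃ i, t i) : content h S ≤ ∑' i, h (ediam (t i)) := by
  rw [content_apply hh]
  exact iInf₂_le t ht

lemma exists_cover {h : ℝ≥0∞ → ℝ≥0∞} (hh : Gauge h) {S : Set X} {b : ℝ≥0∞}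
    (hb : content h S < b) : ∃ t : ℕ → Set X, S ⊆ (⋃ i, t i) ∧ ∑' i, h (ediam (t i)) < b := by
  rw [content_apply hh] at hb
  simp only [iInf_lt_iff] at hb
  obtain ⟨t, h1, h2⟩ := hb
  exact ⟨t, h1, h2⟩

/-- null sets of the measure and of the content -/
lemma null_iff [MeasurableSpace X] [BorelSpace X] {h : ℝ≥0∞ → ℝ≥0∞} (hh : Gauge h) (S : Set X) :
    Measure.mkMetric h S = 0 ↔ content h S = 0 := by
  rw [Measure.mkMetric_apply]
  simp only [sup_eq hh]
  constructor
  · intro H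
    have H1 := (ENNReal.iSup_eq_zero.1 H) 1
    have H2 := (ENNReal.iSup_eq_zero.1 H1) one_pos
    refine le_antisymm (H2 ▸ ?_) (zero_le)
    refine le_iInf₂ fun t ht => le_iInf fun _ => content_le hh ht
  · intro H
    rw [ENNReal.iSup_eq_zero]
    intro r
    rw [ENNReal.iSup_eq_zero]
    intro hr
    refine le_antisymm (le_of_forall_gt fun b hb => ?_) (zero_le)
    obtain ⟨t, h1, h2⟩ := exists_cover hh (show content h S < min b (h r) from
      H ▸ lt_min hb (hh.pos r hr))
    refine lt_of_le_of_lt ?_ (h2.trans_le (min_le_left _ _))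
    refine (iInf₂_le t h1).trans (iInf_le _ fun i => ?_)
    by_contra hc
    push Not at hc
    have h3 : h r ≤ h (ediam (t i)) := hh.mono hc.le
    have h4 : h (ediam (t i)) ≤ ∑' i, h (ediam (t i)) := ENNReal.le_tsum i
    exact absurd (h3.trans h4) (not_le.2 (h2.trans_le (min_le_right _ _)))

lemma content_singleton {h : ℝ≥0∞ → ℝ≥0∞} (hh : Gauge h) (x : X) : content h ({x} : Set X) = 0 := by
  refine le_antisymm ?_ (zero_le)
  refine (OuterMeasure.boundedBy_le _).trans ?_
  simp [hh.zero]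

lemma content_finite {h : ℝ≥0∞ → ℝ≥0∞} (hh : Gauge h) {F : Set X} (hF : F.Finite) :
    content h F = 0 := by
  rw [← biUnion_of_singleton F]
  exact (measure_biUnion_null_iff hF.countable).2 fun x _ => content_singleton hh x

/-- images under Lipschitz maps with constant two -/
lemma content_image {Y : Type} [EMetricSpace Y] {h : ℝ≥0∞ → ℝ≥0∞} (hh : Gauge h) {C : ℝ≥0∞}
    (hC : C ≠ ∞) (hC0 : C ≠ 0) (hd : ∀ x, h (2 * x) ≤ C * h x) {f : X → Y}
    (hf : LipschitzWith 2 f) (S : Set X) :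
    content h (f '' S) ≤ C * content h S := by
  rw [content_apply hh (S := S), ENNReal.mul_iInf_of_ne hC0 hC]
  refine le_iInf fun t => ?_
  rw [ENNReal.mul_iInf_of_ne hC0 hC]
  refine le_iInf fun ht => ?_
  have h1 : f '' S ⊆ ⋃ i, f '' t i := by
    rw [← image_iUnion]
    exact image_mono ht
  refine (content_le hh h1).trans ?_
  rw [← ENNReal.tsum_mul_left]
  refine ENNReal.tsum_le_tsum fun i => ?_
  have hdi : ediam (f '' t i) ≤ 2 * ediam (t i) := by
    have := hf.ediam_image_le (t i)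
    simpa using this
  exact (hh.mono hdi).trans (hd _)

/-- coverings by open sets -/
lemma exists_open {h : ℝ≥0∞ → ℝ≥0∞} (hh : Gauge h) {C : ℝ≥0∞}
    (hd : ∀ x, h (2 * x) ≤ C * h x) (t : ℕ → Set X) {q : ℝ≥0∞} (hq : 0 < q) :
    ∃ u : ℕ → Set X, (∀ i, IsOpen (u i)) ∧ (∀ i, t i ⊆ u i) ∧
      ∑' i, h (ediam (u i)) ≤ C * (∑' i, h (ediam (t i)) + q) := by
  classical
  obtain ⟨δ, hδ0, hδ⟩ := ENNReal.exists_pos_sum_of_countable' hq.ne' ℕ
  have hx : ∀ i, ∃ x : ℝ≥0∞, 0 < x ∧ x < 1 ∧ h x ≤ δ i := by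
    intro i
    have := hh.lim.eventually (gt_mem_nhds (hδ0 i))
    obtain ⟨b, hb, hb'⟩ := ENNReal.nhds_zero_basis.mem_iff.1 this
    obtain ⟨x, hx0, hx1⟩ := exists_between (lt_min hb one_pos)
    exact ⟨x, hx0, hx1.trans_le (min_le_right _ _),
      (hb' (hx1.trans_le (min_le_left _ _))).le⟩
  choose x hx0 hx1 hxδ using hx
  have hxt : ∀ i, x i / 2 ≠ ∞ := fun i =>
    ENNReal.div_ne_top ((hx1 i).trans ENNReal.one_lt_top).ne (by simp)
  set m : ℕ → ℝ≥0∞ := fun i => max (ediam (t i)) (x i) with hm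
  set u : ℕ → Set X := fun i => thickening ((x i / 2).toNNReal : ℝ) (t i) with hu
  have hud : ∀ i, ediam (u i) ≤ 2 * m i := by
    intro i
    simp only [hu]
    refine (ediam_thickening_le _).trans ?_
    rw [ENNReal.coe_toNNReal (hxt i), ENNReal.mul_div_cancel (by simp) (by simp), two_mul]
    exact add_le_add (le_max_left _ _) (le_max_right _ _)
  refine ⟨u, fun i => isOpen_thickening, fun i => ?_, ?_⟩
  · refine self_subset_thickening ?_ _
    exact_mod_cast ENNReal.toNNReal_pos (ENNReal.div_pos (hx0 i).ne' (by simp)).ne' (hxt i)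
  · have hterm : ∀ i, h (ediam (u i)) ≤ C * (h (ediam (t i)) + δ i) := by
      intro i
      refine (hh.mono (hud i)).trans ((hd _).trans ?_)
      gcongr
      simp only [hm]
      rcases le_total (ediam (t i)) (x i) with hc | hc
      · rw [max_eq_right hc]
        exact (hxδ i).trans le_add_self
      · rw [max_eq_left hc]
        exact le_self_add
    calc ∑' i, h (ediam (u i))
        ≤ ∑' i, C * (h (ediam (t i)) + δ i) := ENNReal.tsum_le_tsum hterm
      _ = C * (∑' i, h (ediam (t i)) + ∑' i, δ i) := by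
          rw [ENNReal.tsum_mul_left, ENNReal.tsum_add]
      _ ≤ C * (∑' i, h (ediam (t i)) + q) := by gcongr

/-- the gauge functions of the Hausdorff measures -/
lemma gauge_rpow {s : ℝ} (hs : 0 < s) : Gauge (fun x : ℝ≥0∞ => x ^ s) where
  mono := fun x y hxy => ENNReal.rpow_le_rpow hxy hs.le
  pos := fun x hx => by
    rcases eq_or_ne x ∞ with rfl | h
    · simp [hs]
    · exact ENNReal.rpow_pos hx h
  lim := by
    have := (ENNReal.continuous_rpow_const (y := s)).tendsto 0
    simpa [hs] using this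
  dbl := by
    refine ⟨2 ^ s, by simp, fun x => ?_⟩
    rw [ENNReal.mul_rpow_of_nonneg _ _ hs.le]

end Pool.Agent.Q126.KB
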