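import Mathlib

/-! # The space of Kakeya sets -/

set_option autoImplicit false

open MeasureTheory Metric Set Filter TopologicalSpace
open scoped Topology ENNReal NNReal RealInnerProductSpace

namespace Pool.Agent.Q126.KB

/-- `ℝⁿ` -/
abbrev E (n : ℕ) : Type := EuclideanSpace ℝ (Fin n)

/-- `K` contains a segment of length one in every direction. -/
def HasSeg {n : ℕ} (K : Set (E n)) : Prop :=
  ∀ e : E n, ‖e‖ = 1 → ∃ a : E n, ∀ t ∈ Icc (0 : ℝ) 1, a + t • e ∈ K

/-- The set of all Kakeya sets of `ℝⁿ`, in the space of the nonempty compact subsets of `ℝⁿ` with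
the Hausdorff distance. -/
def KSet (n : ℕ) : Set (NonemptyCompacts (E n)) := {K | HasSeg (K : Set (E n))}

variable {n : ℕ}

lemma infDist_le (K L : NonemptyCompacts (E n)) {y : E n} (hy : y ∈ (K : Set (E n))) :
    infDist y (L : Set (E n)) ≤ dist K L := by
  rw [NonemptyCompacts.dist_eq]
  exact infDist_le_hausdorffDist_of_mem hy
    (hausdorffEDist_ne_top_of_nonempty_of_bounded K.nonempty L.nonempty K.isCompact.isBounded
      L.isCompact.isBounded)

theorem isClosed_KSet (n : ℕ) : IsClosed (KSet n) := by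
  apply IsSeqClosed.isClosed
  intro x K hx hK e he
  choose a ha using fun m => hx m e he
  have hd : Tendsto (fun m => dist (x m) K) atTop (𝓝 0) := tendsto_iff_dist_tendsto_zero.1 hK
  have hc : IsCompact (cthickening 1 (K : Set (E n))) := K.isCompact.cthickening
  have hmem : ∀ᶠ m in atTop, a m ∈ cthickening 1 (K : Set (E n)) := by
    filter_upwards [hd.eventually (gt_mem_nhds zero_lt_one)] with m hm
    have h1 : a m ∈ (x m : Set (E n)) := by
      have := ha m 0 (by simp)
      simpa using this
    obtain ⟨z, hz, hz'⟩ := (infDist_lt_iff K.nonempty).1 ((infDist_le (x m) K h1).trans_lt hm)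
    exact mem_cthickening_of_dist_le _ z _ _ hz hz'.le
  obtain ⟨b, -, φ, hφ, hb⟩ := hc.tendsto_subseq' hmem.frequently
  refine ⟨b, fun t ht => ?_⟩
  have h2 : ∀ k, infDist (a (φ k) + t • e) (K : Set (E n)) ≤ dist (x (φ k)) K :=
    fun k => infDist_le _ _ (ha _ t ht)
  have h3 : Tendsto (fun k => infDist (a (φ k) + t • e) (K : Set (E n))) atTop
      (𝓝 (infDist (b + t • e) (K : Set (E n)))) :=
    ((continuous_infDist_pt _).tendsto _).comp (hb.add_const _)
  have h4 : infDist (b + t • e) (K : Set (E n)) ≤ 0 :=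
    le_of_tendsto_of_tendsto' h3 (hd.comp hφ.tendsto_atTop) h2
  exact (K.isCompact.isClosed.mem_iff_infDist_zero K.nonempty).2 (le_antisymm h4 infDist_nonneg)

instance : CompleteSpace (KSet n) := (isClosed_KSet n).completeSpace_coe

end Pool.Agent.Q126.KB
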