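import Pool.Agent.Q126.KB.Space

/-! # Squeezing towards a line -/

set_option autoImplicit false

open MeasureTheory Metric Set Filter TopologicalSpace
open scoped Topology ENNReal NNReal RealInnerProductSpace

namespace Pool.Agent.Q126.KB

variable {n : ℕ}

/-- the contraction by the factor `η` orthogonally to `e` -/
noncomputable def sq (e : E n) (η : ℝ) : E n →ₗ[ℝ] E n where
  toFun x := η • x + ((1 - η) * ⟪e, x⟫) • e
  map_add' x y := by
    simp only [inner_add_right, smul_add, mul_add, add_smul]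
    abel
  map_smul' c x := by
    simp only [inner_smul_right, RingHom.id_apply, smul_add, smul_smul]
    congr 1
    · rw [mul_comm]
    · congr 1
      ring

lemma sq_apply (e : E n) (η : ℝ) (x : E n) : sq e η x = η • x + ((1 - η) * ⟪e, x⟫) • e := rfl

lemma inner_sq {e : E n} (he : ‖e‖ = 1) (η : ℝ) (x : E n) : ⟪e, sq e η x⟫ = ⟪e, x⟫ := by
  rw [sq_apply, inner_add_right, inner_smul_right, inner_smul_right, real_inner_self_eq_norm_sq, he]
  ring

lemma sq_sq {e : E n} (he : ‖e‖ = 1) {η θ : ℝ} (h : η * θ = 1) (x : E n) :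
    sq e η (sq e θ x) = x := by
  rw [sq_apply e η, inner_sq he, sq_apply e θ, smul_add, smul_smul, smul_smul, h, one_smul,
    add_assoc, ← add_smul]
  have : η * ((1 - θ) * ⟪e, x⟫) + (1 - η) * ⟪e, x⟫ = (1 - η * θ) * ⟪e, x⟫ := by ring
  rw [this, h]
  simp

lemma abs_inner_le {e : E n} (he : ‖e‖ = 1) (x : E n) : |⟪e, x⟫| ≤ ‖x‖ := by
  have := abs_real_inner_le_norm e x
  rwa [he, one_mul] at this

lemma norm_sq_le {e : E n} (he : ‖e‖ = 1) {η : ℝ} (h0 : 0 ≤ η) (h1 : η ≤ 1) (x : E n) :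
    ‖sq e η x‖ ≤ ‖x‖ := by
  rw [sq_apply]
  refine (norm_add_le _ _).trans ?_
  rw [norm_smul, norm_smul, he, mul_one, Real.norm_eq_abs, Real.norm_eq_abs, abs_of_nonneg h0,
    abs_mul, abs_of_nonneg (by linarith : (0:ℝ) ≤ 1 - η)]
  have := mul_le_mul_of_nonneg_left (abs_inner_le he x) (by linarith : (0:ℝ) ≤ 1 - η)
  linarith

lemma norm_sq_inv_le {e : E n} (he : ‖e‖ = 1) {θ : ℝ} (h1 : 1 ≤ θ) (x : E n) :
    ‖sq e θ x‖ ≤ 2 * θ * ‖x‖ := by
  rw [sq_apply]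
  refine (norm_add_le _ _).trans ?_
  rw [norm_smul, norm_smul, he, mul_one, Real.norm_eq_abs, Real.norm_eq_abs,
    abs_of_nonneg (by linarith : (0:ℝ) ≤ θ), abs_mul, abs_of_nonpos (by linarith : 1 - θ ≤ (0:ℝ))]
  have := mul_le_mul_of_nonneg_left (abs_inner_le he x) (by linarith : (0:ℝ) ≤ -(1 - θ))
  have := norm_nonneg x
  nlinarith

/-- the squeezed point is close to the axis -/
lemma norm_sq_sub_le {e : E n} (he : ‖e‖ = 1) {η : ℝ} (h0 : 0 ≤ η) (x : E n) :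
    ‖sq e η x - ⟪e, x⟫ • e‖ ≤ 2 * η * ‖x‖ := by
  have : sq e η x - ⟪e, x⟫ • e = η • (x - ⟪e, x⟫ • e) := by
    rw [sq_apply]
    module
  rw [this, norm_smul, Real.norm_eq_abs, abs_of_nonneg h0]
  have h2 : ‖x - ⟪e, x⟫ • e‖ ≤ 2 * ‖x‖ := by
    refine (norm_sub_le _ _).trans ?_
    rw [norm_smul, he, mul_one, Real.norm_eq_abs]
    have := abs_inner_le he x
    linarith
  nlinarith

/-- directions close to the axis -/
lemma norm_sq_inv_unit_le {e u : E n} (he : ‖e‖ = 1) (hu : ‖u‖ = 1) {η : ℝ} (h0 : 0 < η)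
    (hd : ‖u - e‖ ≤ η) : ‖sq e η⁻¹ u‖ ≤ 2 := by
  have h1 : sq e η⁻¹ u = ⟪e, u⟫ • e + η⁻¹ • (u - ⟪e, u⟫ • e) := by
    rw [sq_apply, smul_sub, smul_smul, sub_mul, one_mul, sub_smul]
    abel
  have h2 : ‖u - ⟪e, u⟫ • e‖ ≤ ‖u - e‖ := by
    have h3 : ‖u - ⟪e, u⟫ • e‖ ^ 2 = 1 - ⟪e, u⟫ ^ 2 := by
      rw [norm_sub_sq_real, inner_smul_right, norm_smul, he, hu, real_inner_comm e u,
        Real.norm_eq_abs, mul_one, sq_abs]
      ring
    have h4 : ‖u - e‖ ^ 2 = 2 - 2 * ⟪e, u⟫ := by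
      rw [norm_sub_sq_real, he, hu, real_inner_comm e u]
      ring
    have h5 : ⟪e, u⟫ ≤ 1 := by
      have := (le_abs_self _).trans (abs_inner_le he u)
      rwa [hu] at this
    refine le_of_sq_le_sq ?_ (norm_nonneg _)
    rw [h3, h4]
    nlinarith
  rw [h1]
  refine (norm_add_le _ _).trans ?_
  rw [norm_smul, norm_smul, he, mul_one, Real.norm_eq_abs, Real.norm_eq_abs,
    abs_of_pos (inv_pos.2 h0)]
  have h6 := abs_inner_le he u
  rw [hu] at h6
  have h7 : η⁻¹ * ‖u - ⟪e, u⟫ • e‖ ≤ η⁻¹ * η :=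
    mul_le_mul_of_nonneg_left (h2.trans hd) (inv_pos.2 h0).le
  rw [inv_mul_cancel₀ h0.ne'] at h7
  linarith

end Pool.Agent.Q126.KB
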