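import Pool.Agent.Q126.KB.Haus

/-! # Typical Kakeya sets and the volumes of the neighbourhoods -/

set_option autoImplicit false

open MeasureTheory Metric Set Filter TopologicalSpace
open scoped Topology ENNReal NNReal RealInnerProductSpace

namespace Pool.Agent.Q126.KB

variable {n : ℕ}

/-- the volume of the `δ`-neighbourhood -/
noncomputable def vol (K : NonemptyCompacts (E n)) (δ : ℝ) : ℝ≥0∞ :=
  volume (thickening δ (K : Set (E n)))

lemma vol_mono (K : NonemptyCompacts (E n)) {a b : ℝ} (h : a ≤ b) : vol K a ≤ vol K b :=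
  measure_mono (thickening_mono h _)

/-- the inverse of the squeezing -/
lemma thickening_cp {p c e : E n} (he : ‖e‖ = 1) {η : ℝ} (h0 : 0 < η) (h1 : η ≤ 1)
    (L : Set (E n)) (δ : ℝ) :
    thickening δ (cp p c e η '' L) ⊆ cp p c e η '' thickening (δ / η) L := by
  intro y hy
  obtain ⟨z, ⟨x, hx, rfl⟩, hxy⟩ := mem_thickening_iff.1 hy
  refine ⟨c + sq e η⁻¹ ((1 / 2 : ℝ) • (y - p)), mem_thickening_iff.2 ⟨x, hx, ?_⟩, ?_⟩
  · have h2 : c + sq e η⁻¹ ((1 / 2 : ℝ) • (y - p)) - x =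
        sq e η⁻¹ ((1 / 2 : ℝ) • (y - cp p c e η x)) := by
      have h3 : (1 / 2 : ℝ) • (y - cp p c e η x) = (1 / 2 : ℝ) • (y - p) - sq e η (x - c) := by
        unfold cp
        module
      rw [h3, map_sub, sq_sq he (inv_mul_cancel₀ h0.ne')]
      abel
    rw [dist_eq_norm, h2]
    refine (norm_sq_inv_le he ((one_le_inv₀ h0).2 h1) _).trans_lt ?_
    rw [norm_smul, ← dist_eq_norm, Real.norm_eq_abs, abs_of_pos (by norm_num : (0:ℝ) < 1 / 2),
      div_eq_mul_inv δ η]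
    have : 0 < η⁻¹ := inv_pos.2 h0
    have h4 := mul_lt_mul_of_pos_left hxy this
    calc 2 * η⁻¹ * (1 / 2 * dist y (cp p c e η x)) = η⁻¹ * dist y (cp p c e η x) := by ring
      _ < η⁻¹ * δ := h4
      _ = δ * η⁻¹ := by ring
  · unfold cp
    rw [add_sub_cancel_left, sq_sq he (mul_inv_cancel₀ h0.ne')]
    module

lemma volume_cp (e : E n) (η : ℝ) : ∃ C : ℝ≥0∞, C ≠ ∞ ∧ ∀ (p c : E n) (S : Set (E n)),
    volume (cp p c e η '' S) ≤ C * volume S := by
  set T : E n →ₗ[ℝ] E n := (2 : ℝ) • sq e η with hT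
  refine ⟨ENNReal.ofReal |LinearMap.det T|, ENNReal.ofReal_ne_top, fun p c S => ?_⟩
  have h1 : cp p c e η '' S = (fun y => (p - T c) + y) '' (T '' S) := by
    rw [← image_comp]
    refine image_congr fun x _ => ?_
    simp only [cp, hT, Function.comp_apply, LinearMap.smul_apply, map_sub, smul_sub]
    abel
  rw [h1, image_add_left, measure_preimage_add, Measure.addHaar_image_linearMap]

/-- the volumes of the neighbourhoods of the approximation -/
lemma vol_approx {F : Set (E n)} {ι : Type} [Finite ι] (p e : ι → E n) {η : ℝ} (h0 : 0 < η)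
    (h1 : η ≤ 1) (he : ∀ i, ‖e i‖ = 1) (hF : F.Finite) :
    ∃ C : ℝ≥0∞, C ≠ ∞ ∧ C ≠ 0 ∧ ∀ (K' L : NonemptyCompacts (E n)) (c : ι → E n),
      (K' : Set (E n)) ⊆ F ∪ ⋃ i, cp (p i) (c i) (e i) η '' (L : Set (E n)) →
      ∀ δ : ℝ, 0 < δ → vol K' δ ≤ C * vol L (δ / η) := by
  have := Fintype.ofFinite ι
  choose C hC hCv using fun i => volume_cp (e i) η
  refine ⟨(hF.toFinset.card + ∑ i, C i) + 1, ?_, by simp, fun K' L c hsub δ hδ => ?_⟩
  · refine ENNReal.add_ne_top.2 ⟨ENNReal.add_ne_top.2 ⟨by simp, ?_⟩, by simp⟩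
    exact (ENNReal.sum_lt_top.2 fun i _ => (hC i).lt_top).ne
  · have hle : δ ≤ δ / η := by
      rw [le_div_iff₀ h0]
      nlinarith
    have e1 : thickening δ (K' : Set (E n)) ⊆ (⋃ x ∈ hF.toFinset, ball x δ) ∪
        ⋃ i, cp (p i) (c i) (e i) η '' thickening (δ / η) (L : Set (E n)) := by
      refine (thickening_subset_of_subset δ hsub).trans ?_
      rw [thickening_union, thickening_iUnion]
      refine union_subset_union ?_ (iUnion_mono fun i => thickening_cp (he i) h0 h1 _ _)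
      rw [thickening_eq_biUnion_ball]
      simp
    obtain ⟨y, hy⟩ := L.nonempty
    have e2 : ∀ x : E n, volume (ball x δ) ≤ vol L (δ / η) := by
      intro x
      rw [Measure.addHaar_ball_center, ← Measure.addHaar_ball_center volume y δ]
      refine measure_mono ((ball_subset_ball hle).trans ?_)
      exact ball_subset_thickening hy _
    calc vol K' δ ≤ volume ((⋃ x ∈ hF.toFinset, ball x δ) ∪
        ⋃ i, cp (p i) (c i) (e i) η '' thickening (δ / η) (L : Set (E n))) := measure_mono e1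
      _ ≤ volume (⋃ x ∈ hF.toFinset, ball x δ) +
          volume (⋃ i, cp (p i) (c i) (e i) η '' thickening (δ / η) (L : Set (E n))) :=
          measure_union_le _ _
      _ ≤ ∑ x ∈ hF.toFinset, volume (ball x δ) +
          ∑ i, volume (cp (p i) (c i) (e i) η '' thickening (δ / η) (L : Set (E n))) := by
          refine add_le_add (measure_biUnion_finset_le _ _) ?_
          exact measure_iUnion_fintype_le _ _
      _ ≤ ∑ x ∈ hF.toFinset, vol L (δ / η) + ∑ i, C i * vol L (δ / η) := by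
          refine add_le_add (Finset.sum_le_sum fun x _ => e2 x)
            (Finset.sum_le_sum fun i _ => hCv i _ _ _)
      _ = (hF.toFinset.card + ∑ i, C i) * vol L (δ / η) := by
          rw [Finset.sum_const, nsmul_eq_mul, ← Finset.sum_mul, add_mul]
      _ ≤ ((hF.toFinset.card + ∑ i, C i) + 1) * vol L (δ / η) :=
          mul_le_mul' le_self_add le_rfl

/-- Doubling functions of the radius. -/
structure Scale (ψ : ℝ → ℝ≥0∞) : Prop where
  mono : ∀ x y, 0 < x → x ≤ y → ψ x ≤ ψ y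
  dbl : ∃ C : ℝ≥0∞, C ≠ ∞ ∧ ∀ x, 0 < x → ψ (2 * x) ≤ C * ψ x

lemma Scale.iter {ψ : ℝ → ℝ≥0∞} (hψ : Scale ψ) {κ : ℝ} (hκ : 0 < κ) :
    ∃ C : ℝ≥0∞, C ≠ ∞ ∧ C ≠ 0 ∧ ∀ x, 0 < x → ψ x ≤ C * ψ (κ * x) := by
  obtain ⟨C, hC, hd⟩ := hψ.dbl
  obtain ⟨k, hk⟩ := pow_unbounded_of_one_lt κ⁻¹ (one_lt_two : (1 : ℝ) < 2)
  have h1 : ∀ (k : ℕ) (x : ℝ), 0 < x → ψ (2 ^ k * x) ≤ C ^ k * ψ x := by
    intro k
    induction k with
    | zero => intro x hx; simp
    | succ k ih =>
      intro x hx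
      have e1 : (2 : ℝ) ^ (k + 1) * x = 2 * (2 ^ k * x) := by ring
      rw [e1]
      refine (hd _ (by positivity)).trans ?_
      rw [pow_succ', mul_assoc]
      gcongr
      exact ih x hx
  refine ⟨C ^ k + 1, by simp [hC], by simp, fun x hx => ?_⟩
  have h2 : x ≤ 2 ^ k * (κ * x) := by
    have : 1 ≤ 2 ^ k * κ := by
      have := mul_lt_mul_of_pos_right hk hκ
      rw [inv_mul_cancel₀ hκ.ne'] at this
      exact this.le
    nlinarith
  calc ψ x ≤ ψ (2 ^ k * (κ * x)) := hψ.mono _ _ hx h2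
    _ ≤ C ^ k * ψ (κ * x) := h1 k _ (by positivity)
    _ ≤ (C ^ k + 1) * ψ (κ * x) := by
        gcongr
        exact le_self_add

/-- the Kakeya sets with a small neighbourhood -/
def Slim (n : ℕ) (ψ : ℝ → ℝ≥0∞) (r : ℝ) : Set (KSet n) :=
  {K | ∃ (K₀ : KSet n) (δ : ℝ), 0 < δ ∧ δ < r ∧ dist K K₀ < δ ∧
    vol (K₀ : NonemptyCompacts (E n)) (2 * δ) < ENNReal.ofReal r * ψ δ}

lemma isOpen_Slim (ψ : ℝ → ℝ≥0∞) (r : ℝ) : IsOpen (Slim n ψ r) := by
  rw [Metric.isOpen_iff]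
  rintro K ⟨K₀, δ, h1, h2, h3, h4⟩
  refine ⟨δ - dist K K₀, by linarith, fun K' hK' => ⟨K₀, δ, h1, h2, ?_, h4⟩⟩
  rw [mem_ball] at hK'
  have := dist_triangle K' K K₀
  linarith

lemma vol_of_Slim {ψ : ℝ → ℝ≥0∞} {r : ℝ} {K : KSet n} (hK : K ∈ Slim n ψ r) :
    ∃ δ, 0 < δ ∧ δ < r ∧ vol (K : NonemptyCompacts (E n)) δ < ENNReal.ofReal r * ψ δ := by
  obtain ⟨K₀, δ, h1, h2, h3, h4⟩ := hK
  refine ⟨δ, h1, h2, lt_of_le_of_lt ?_ h4⟩
  refine measure_mono ?_
  have h5 : ((K : NonemptyCompacts (E n)) : Set (E n)) ⊆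
      thickening δ ((K₀ : NonemptyCompacts (E n)) : Set (E n)) := subset_thickening h3
  refine (thickening_subset_of_subset δ h5).trans ?_
  rw [two_mul]
  exact thickening_thickening_subset _ _ _

/-- **The dichotomy for the neighbourhoods.** -/
theorem volume_dichotomy {ψ : ℝ → ℝ≥0∞} (hψ : Scale ψ) :
    (∀ᶠ K : KSet n in residual (KSet n), ∀ r > 0, ∃ δ, 0 < δ ∧ δ < r ∧
      vol (K : NonemptyCompacts (E n)) δ < ENNReal.ofReal r * ψ δ) ∨
    (∀ R : ℝ, ∃ b : ℝ≥0∞, 0 < b ∧ ∀ L ∈ KSet n, (L : Set (E n)) ⊆ closedBall 0 R →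
      ∀ δ, 0 < δ → δ < 1 → b * ψ δ ≤ vol L δ) := by
  by_cases hD : ∀ k : ℕ, Dense (Slim n ψ ((k : ℝ) + 1)⁻¹)
  · left
    have hk : ∀ k : ℕ, ∀ᶠ K : KSet n in residual (KSet n), K ∈ Slim n ψ ((k : ℝ) + 1)⁻¹ :=
      fun k => residual_of_dense_open (isOpen_Slim _ _) (hD k)
    filter_upwards [eventually_countable_forall.2 hk] with K hK r hr
    obtain ⟨k, hk⟩ := exists_nat_one_div_lt hr
    rw [one_div] at hk
    obtain ⟨δ, h1, h2, h3⟩ := vol_of_Slim (hK k)
    refine ⟨δ, h1, h2.trans hk, h3.trans_le ?_⟩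
    gcongr
  · right
    push Not at hD
    obtain ⟨k, hk⟩ := hD
    rw [Metric.dense_iff] at hk
    push Not at hk
    obtain ⟨K, ρ, hρ, hk⟩ := hk
    set r : ℝ := ((k : ℝ) + 1)⁻¹ with hr
    have hr0 : 0 < r := by positivity
    intro R
    obtain ⟨F, ι, hι, p, e, η, h0, h1, he, hF, happ⟩ := approx K.2 hρ (abs_nonneg R)
    obtain ⟨C, hC, hC0, hvol⟩ := vol_approx p e h0 h1 he hF
    set κ : ℝ := min (η / 2) (r / 2) with hκ
    have hκ0 : 0 < κ := lt_min (by positivity) (by positivity)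
    obtain ⟨D, hD, hD0, hit⟩ := hψ.iter hκ0
    have hr0' : ENNReal.ofReal r ≠ 0 := by simpa using hr0
    refine ⟨ENNReal.ofReal r / (C * D), ENNReal.div_pos hr0' (ENNReal.mul_ne_top hC hD),
      fun L hL hLR δ hδ0 hδ1 => ?_⟩
    obtain ⟨K', hK', hdist, c, hsub⟩ := happ L hL
      (hLR.trans (closedBall_subset_closedBall (le_abs_self R)))
    have hκδ : 0 < κ * δ := by positivity
    have h2 : κ * δ < r := by
      have : κ ≤ r / 2 := min_le_right _ _
      nlinarith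
    have h3 : ENNReal.ofReal r * ψ (κ * δ) ≤ vol K' (2 * (κ * δ)) := by
      by_contra hc
      push Not at hc
      have h4 : (⟨K', hK'⟩ : KSet n) ∈ ball K ρ ∩ Slim n ψ r :=
        ⟨hdist, ⟨K', hK'⟩, κ * δ, hκδ, h2, by rwa [dist_self], hc⟩
      rw [hk] at h4
      exact h4
    have h5 : 2 * (κ * δ) / η ≤ δ := by
      rw [div_le_iff₀ h0]
      have : κ ≤ η / 2 := min_le_left _ _
      nlinarith
    have h6 : ENNReal.ofReal r * ψ δ ≤ C * D * vol L δ := by
      calc ENNReal.ofReal r * ψ δ ≤ ENNReal.ofReal r * (D * ψ (κ * δ)) := by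
            gcongr
            exact hit δ hδ0
        _ = D * (ENNReal.ofReal r * ψ (κ * δ)) := by ring
        _ ≤ D * (C * vol L δ) := by
            refine mul_le_mul' le_rfl ?_
            refine h3.trans ((hvol K' L c hsub _ (by positivity)).trans ?_)
            exact mul_le_mul' le_rfl (vol_mono _ h5)
        _ = C * D * vol L δ := by ring
    rw [ENNReal.div_eq_inv_mul, mul_assoc,
      ENNReal.inv_mul_le_iff (mul_ne_zero hC0 hD0) (ENNReal.mul_ne_top hC hD)]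
    exact h6

end Pool.Agent.Q126.KB
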